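import Pool.Agent.Helper89.TQ.Spec

/-! TQ (helper89), part `BRIDGE`. -/

set_option autoImplicit false

namespace Pool.Agent.Helper36.TQ.BRIDGE

open Finset Pool.Agent.R6.Trade Pool.Agent.Helper89.TQ

variable {N : Type} [DecidableEq N]

theorem vec_insert {t : ℕ} (τ : N → Fin t) {S : Finset N} {v : N} (hv : v ∉ S) (i : Fin t) :
    vec τ (insert v S) i = vec τ S i + if τ v = i then 1 else 0 := by
  unfold vec
  rw [filter_insert]
  split_ifs with h
  · rw [card_insert_of_notMem]
    simp [hv]
  · rfl

theorem vec_erase {t : ℕ} (τ : N → Fin t) {S : Finset N} {v : N} (hv : v ∈ S) (i : Fin t) :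
    vec τ (S.erase v) i + (if τ v = i then 1 else 0) = vec τ S i := by
  rw [← vec_insert τ (notMem_erase v S), insert_erase hv]

theorem exists_in {t : ℕ} (τ : N → Fin t) {S : Finset N} {i : Fin t} (h : 0 < vec τ S i) :
    ∃ v ∈ S, τ v = i := by
  obtain ⟨v, hv⟩ := card_pos.1 h
  exact ⟨v, (mem_filter.1 hv).1, (mem_filter.1 hv).2⟩

section
variable [Fintype N]

theorem vec_le {t : ℕ} (τ : N → Fin t) (S : Finset N) (i : Fin t) : vec τ S i ≤ nn τ i :=
  card_le_card (filter_subset_filter _ (subset_univ _))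

theorem exists_out {t : ℕ} (τ : N → Fin t) {S : Finset N} {i : Fin t} (h : vec τ S i < nn τ i) :
    ∃ v, v ∉ S ∧ τ v = i := by
  by_contra hcon
  push Not at hcon
  have h1 : univ.filter (fun v => τ v = i) ⊆ S.filter (fun v => τ v = i) := by
    intro v hv
    have hv2 := (mem_filter.1 hv).2
    refine mem_filter.2 ⟨?_, hv2⟩
    by_contra h2
    exact hcon v h2 hv2
  exact absurd (card_le_card h1) (not_le.2 h)

theorem add {t : ℕ} {W : Finset N → Prop} (hmono : ∀ S T : Finset N, S ⊆ T → W S → W T)
    (τ : N → Fin t) {S : Finset N} (hS : W S) {i : Fin t} (h : vec τ S i < nn τ i) :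
    ∃ T, W T ∧ ∀ k, vec τ T k = vec τ S k + if i = k then 1 else 0 := by
  obtain ⟨v, hv, hi⟩ := exists_out τ h
  refine ⟨insert v S, hmono _ _ (subset_insert _ _) hS, fun k => ?_⟩
  rw [vec_insert τ hv, hi]

theorem shift {t : ℕ} {W : Finset N → Prop} (τ : N → Fin t)
    (hτ : ∀ u v, τ u ≤ τ v → AtLeast W u v) {S : Finset N} (hS : W S) {i j : Fin t} (hij : i ≤ j)
    (h : vec τ S i < nn τ i) (h' : 0 < vec τ S j) :
    ∃ T, W T ∧ ∀ k, vec τ T k + (if j = k then 1 else 0) = vec τ S k + if i = k then 1 else 0 := by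
  obtain ⟨u, hu, rfl⟩ := exists_out τ h
  obtain ⟨v, hv, rfl⟩ := exists_in τ h'
  have hu' : u ∉ S.erase v := fun h => hu (mem_of_mem_erase h)
  refine ⟨insert u (S.erase v), ?_, fun k => ?_⟩
  · apply hτ u v hij (S.erase v) hu' (notMem_erase v S)
    rwa [insert_erase hv]
  · rw [vec_insert τ hu']
    have := vec_erase τ hv k
    omega

theorem up {W : Finset N → Prop} (hmono : ∀ S T : Finset N, S ⊆ T → W S → W T)
    (τ : N → Fin 3) (hτ : ∀ u v, τ u ≤ τ v → AtLeast W u v) (T : Finset N) :
    ∀ (m : ℕ) (S : Finset N), W S → GE (vec τ T) (vec τ S) →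
      3 * vec τ T 0 + 2 * vec τ T 1 + vec τ T 2 ≤ 3 * vec τ S 0 + 2 * vec τ S 1 + vec τ S 2 + m →
      W T := by
  intro m
  induction m with
  | zero =>
    intro S hS hG hm
    obtain ⟨g0, g1, g2⟩ := hG
    have h : vec τ S = vec τ T := by
      funext i
      fin_cases i
      · change vec τ S 0 = vec τ T 0; omega
      · change vec τ S 1 = vec τ T 1; omega
      · change vec τ S 2 = vec τ T 2; omega
    exact win_of_vec_eq hmono τ (fun a b hab => hτ a b hab.le) _ S T rfl h hS
  | succ m ih =>
    intro S hS hG hm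
    obtain ⟨g0, g1, g2⟩ := hG
    have n0 := vec_le τ T 0
    have n1 := vec_le τ T 1
    have n2 := vec_le τ T 2
    by_cases h0 : vec τ S 0 < vec τ T 0
    · by_cases h1 : vec τ T 0 + vec τ T 1 ≤ vec τ S 0 + vec τ S 1
      · obtain ⟨S', hW', hv⟩ := shift τ hτ hS (show (0 : Fin 3) ≤ 1 by decide)
          (by omega : vec τ S 0 < nn τ 0) (by omega : 0 < vec τ S 1)
        have v0 := hv 0
        have v1 := hv 1
        have v2 := hv 2
        rw [if_neg (by decide), if_pos rfl] at v0
        rw [if_pos rfl, if_neg (by decide)] at v1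
        rw [if_neg (by decide), if_neg (by decide)] at v2
        exact ih S' hW' ⟨by omega, by omega, by omega⟩ (by omega)
      · by_cases h2 : vec τ T 0 + vec τ T 1 + vec τ T 2 ≤ vec τ S 0 + vec τ S 1 + vec τ S 2
        · obtain ⟨S', hW', hv⟩ := shift τ hτ hS (show (0 : Fin 3) ≤ 2 by decide)
            (by omega : vec τ S 0 < nn τ 0) (by omega : 0 < vec τ S 2)
          have v0 := hv 0
          have v1 := hv 1
          have v2 := hv 2
          rw [if_neg (by decide), if_pos rfl] at v0
          rw [if_neg (by decide), if_neg (by decide)] at v1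
          rw [if_pos rfl, if_neg (by decide)] at v2
          exact ih S' hW' ⟨by omega, by omega, by omega⟩ (by omega)
        · obtain ⟨S', hW', hv⟩ := add hmono τ hS (by omega : vec τ S 0 < nn τ 0)
          have v0 := hv 0
          have v1 := hv 1
          have v2 := hv 2
          rw [if_pos rfl] at v0
          rw [if_neg (by decide)] at v1 v2
          exact ih S' hW' ⟨by omega, by omega, by omega⟩ (by omega)
    · by_cases h1 : vec τ S 0 + vec τ S 1 < vec τ T 0 + vec τ T 1
      · by_cases h2 : vec τ T 0 + vec τ T 1 + vec τ T 2 ≤ vec τ S 0 + vec τ S 1 + vec τ S 2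
        · obtain ⟨S', hW', hv⟩ := shift τ hτ hS (show (1 : Fin 3) ≤ 2 by decide)
            (by omega : vec τ S 1 < nn τ 1) (by omega : 0 < vec τ S 2)
          have v0 := hv 0
          have v1 := hv 1
          have v2 := hv 2
          rw [if_neg (by decide), if_neg (by decide)] at v0
          rw [if_neg (by decide), if_pos rfl] at v1
          rw [if_pos rfl, if_neg (by decide)] at v2
          exact ih S' hW' ⟨by omega, by omega, by omega⟩ (by omega)
        · obtain ⟨S', hW', hv⟩ := add hmono τ hS (by omega : vec τ S 1 < nn τ 1)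
          have v0 := hv 0
          have v1 := hv 1
          have v2 := hv 2
          rw [if_pos rfl] at v1
          rw [if_neg (by decide)] at v0 v2
          exact ih S' hW' ⟨by omega, by omega, by omega⟩ (by omega)
      · by_cases h2 : vec τ S 0 + vec τ S 1 + vec τ S 2 < vec τ T 0 + vec τ T 1 + vec τ T 2
        · obtain ⟨S', hW', hv⟩ := add hmono τ hS (by omega : vec τ S 2 < nn τ 2)
          have v0 := hv 0
          have v1 := hv 1
          have v2 := hv 2
          rw [if_pos rfl] at v2
          rw [if_neg (by decide)] at v0 v1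
          exact ih S' hW' ⟨by omega, by omega, by omega⟩ (by omega)
        · exact ih S hS ⟨g0, g1, g2⟩ (by omega)

theorem main : S_BRIDGE := by
  intro N _ _ W τ a b hW hsurj hAL hab hmin
  obtain ⟨hW0, hW1, hmono⟩ := hW
  have hτ : ∀ u v, τ u ≤ τ v → AtLeast W u v := fun u v h => (hAL u v).2 h
  have ma := (hmin a).2 (Or.inl rfl)
  have mb := (hmin b).2 (Or.inr rfl)
  obtain ⟨⟨Sa, hSa, hva⟩, ma2⟩ := ma
  obtain ⟨⟨Sb, hSb, hvb⟩, mb2⟩ := mb
  have hle : ∀ (k : ℕ) (S : Finset N), W S → 3 * vec τ S 0 + 2 * vec τ S 1 + vec τ S 2 ≤ k →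
      Win a b (vec τ S) := by
    intro k
    induction k using Nat.strong_induction_on with
    | _ k ih =>
      intro S hS hk
      by_cases hm : MinWin W τ (vec τ S)
      · rcases (hmin _).1 hm with h | h
        · left; rw [h]; exact ⟨le_rfl, le_rfl, le_rfl⟩
        · right; rw [h]; exact ⟨le_rfl, le_rfl, le_rfl⟩
      · have h1 : ∃ S', W S' ∧ GE (vec τ S) (vec τ S') ∧ vec τ S' ≠ vec τ S := by
          by_contra hcon
          push Not at hcon
          exact hm ⟨⟨S, hS, rfl⟩, hcon⟩
        obtain ⟨S', hS', ⟨g0, g1, g2⟩, hne⟩ := h1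
        have hlt : 3 * vec τ S' 0 + 2 * vec τ S' 1 + vec τ S' 2 <
            3 * vec τ S 0 + 2 * vec τ S 1 + vec τ S 2 := by
          by_contra hcon
          apply hne
          funext i
          fin_cases i
          · change vec τ S' 0 = vec τ S 0; omega
          · change vec τ S' 1 = vec τ S 1; omega
          · change vec τ S' 2 = vec τ S 2; omega
        rcases ih (3 * vec τ S' 0 + 2 * vec τ S' 1 + vec τ S' 2) (by omega) S' hS' le_rfl with
          ⟨e0, e1, e2⟩ | ⟨e0, e1, e2⟩
        · left; exact ⟨by omega, by omega, by omega⟩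
        · right; exact ⟨by omega, by omega, by omega⟩
  have hiff : ∀ S, W S ↔ Win a b (vec τ S) := by
    intro S
    refine ⟨fun h => hle _ S h le_rfl, ?_⟩
    rintro (h | h)
    · rw [← hva] at h
      exact up hmono τ hτ S (3 * vec τ S 0 + 2 * vec τ S 1 + vec τ S 2) Sa hSa h (by omega)
    · rw [← hvb] at h
      exact up hmono τ hτ S (3 * vec τ S 0 + 2 * vec τ S 1 + vec τ S 2) Sb hSb h (by omega)
  have hdist : ∀ i j : Fin 3, i < j → ∃ x : Fin 3 → ℕ, x j < nn τ j ∧
      Win a b (fun k => x k + if i = k then 1 else 0) ∧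
      ¬ Win a b (fun k => x k + if j = k then 1 else 0) := by
    intro i j hij
    obtain ⟨u, rfl⟩ := hsurj i
    obtain ⟨v, rfl⟩ := hsurj j
    have h1 : ¬ AtLeast W v u := fun h => absurd ((hAL v u).1 h) (not_le.2 hij)
    unfold AtLeast at h1
    push Not at h1
    obtain ⟨S, hvS, huS, hWu, hWv⟩ := h1
    refine ⟨vec τ S, ?_, ?_, ?_⟩
    · have h2 := vec_le τ (insert v S) (τ v)
      rw [vec_insert τ hvS, if_pos rfl] at h2
      omega
    · have h2 := (hiff _).1 hWu
      have h3 : vec τ (insert u S) = fun k => vec τ S k + if τ u = k then 1 else 0 :=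
        funext fun k => vec_insert τ huS k
      rwa [h3] at h2
    · have h2 := fun h => hWv ((hiff _).2 h)
      have h3 : vec τ (insert v S) = fun k => vec τ S k + if τ v = k then 1 else 0 :=
        funext fun k => vec_insert τ hvS k
      rwa [h3] at h2
  refine ⟨fun i => ?_, fun i => ?_, fun h => ?_, fun h => ?_, ?_, ?_, hiff⟩
  · rw [← hva]; exact vec_le τ _ i
  · rw [← hvb]; exact vec_le τ _ i
  · rw [← hvb] at h
    exact hab ((ma2 Sb hSb h).symm.trans hvb)
  · rw [← hva] at h
    exact hab (hva.symm.trans (mb2 Sa hSa h))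
  · obtain ⟨x, hx, h1, h2⟩ := hdist 0 1 (by decide)
    unfold Win GE at h1 h2
    simp only [Fin.isValue, if_true, show ((0 : Fin 3) = 1) = False by simp,
      show ((0 : Fin 3) = 2) = False by simp, show ((1 : Fin 3) = 0) = False by simp,
      show ((1 : Fin 3) = 2) = False by simp, if_false, add_zero] at h1 h2
    omega
  · obtain ⟨x, hx, h1, h2⟩ := hdist 1 2 (by decide)
    unfold Win GE at h1 h2
    simp only [Fin.isValue, if_true, show ((1 : Fin 3) = 0) = False by simp,
      show ((2 : Fin 3) = 0) = False by simp, show ((2 : Fin 3) = 1) = False by simp,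
      show ((1 : Fin 3) = 2) = False by simp, if_false, add_zero] at h1 h2
    omega

end

end Pool.Agent.Helper36.TQ.BRIDGE
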